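import Mathlib

/-!
# A potential which is lexicographic by classes and by weights inside a class
-/

set_option autoImplicit false

namespace Pool.Agent.Helper68.SX

/-- A potential which is lexicographic by classes, and monotone in the weight inside a class. -/
theorem exists_pot {E : Type} [Fintype E] [DecidableEq E] (cls : E → ℕ) (w : E → ℝ) :
    ∃ U : E → ℝ, (∀ e, 0 ≤ U e) ∧
      (∀ e, ∑ x ∈ Finset.univ.filter (fun x => cls e < cls x), U x < U e) ∧
      (∀ y e, cls e = cls y → w y < w e →
        U y + ∑ x ∈ Finset.univ.filter (fun x => cls y < cls x), U x < U e) ∧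
      (∀ y e e', cls e = cls y → cls e' = cls y →
        U y + ∑ x ∈ Finset.univ.filter (fun x => cls y < cls x), U x < U e + U e') := by
  classical
  obtain ⟨N, hN⟩ : ∃ N : ℝ, N = (Fintype.card E : ℝ) + 1 := ⟨_, rfl⟩
  have hN1 : 1 ≤ N := by
    have : (0 : ℝ) ≤ (Fintype.card E : ℝ) := Nat.cast_nonneg _
    linarith
  have hN0 : 0 < N := by linarith
  obtain ⟨r, hr⟩ : ∃ r : E → ℝ,
      r = fun e => ((Finset.univ.filter (fun x => w x < w e)).card : ℝ) := ⟨_, rfl⟩
  have hr0 : ∀ e, 0 ≤ r e := fun e => by rw [hr]; exact Nat.cast_nonneg _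
  have hrN : ∀ e, r e ≤ N - 1 := by
    intro e
    rw [hr, hN]
    have : (Finset.univ.filter (fun x => w x < w e)).card ≤ Fintype.card E :=
      Finset.card_le_univ _
    have h2 : ((Finset.univ.filter (fun x => w x < w e)).card : ℝ) ≤ (Fintype.card E : ℝ) := by
      exact_mod_cast this
    simpa using h2
  have hrm : ∀ y e, w y < w e → r y + 1 ≤ r e := by
    intro y e h
    rw [hr]
    have h1 : (Finset.univ.filter (fun x => w x < w y)).card <
        (Finset.univ.filter (fun x => w x < w e)).card := by
      refine Finset.card_lt_card (Finset.ssubset_iff_subset_ne.2 ⟨?_, ?_⟩)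
      · intro x hx
        rw [Finset.mem_filter] at hx ⊢
        exact ⟨hx.1, hx.2.trans h⟩
      · intro hcon
        have h2 : y ∈ Finset.univ.filter (fun x => w x < w e) :=
          Finset.mem_filter.2 ⟨Finset.mem_univ y, h⟩
        rw [← hcon] at h2
        exact lt_irrefl _ (Finset.mem_filter.1 h2).2
    have h2 : (Finset.univ.filter (fun x => w x < w y)).card + 1 ≤
        (Finset.univ.filter (fun x => w x < w e)).card := h1
    change ((Finset.univ.filter (fun x => w x < w y)).card : ℝ) + 1 ≤
        ((Finset.univ.filter (fun x => w x < w e)).card : ℝ)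
    exact_mod_cast h2
  obtain ⟨θ, hθ⟩ : ∃ θ : ℝ, θ = 1 / (4 * N ^ 2) := ⟨_, rfl⟩
  have hθ0 : 0 < θ := by rw [hθ]; positivity
  have hθ1 : θ ≤ 1 := by
    rw [hθ, div_le_one (by positivity)]
    nlinarith
  obtain ⟨U, hU⟩ : ∃ U : E → ℝ, U = fun e => θ ^ (cls e) * (1 + r e / (2 * N)) := ⟨_, rfl⟩
  have hfac : ∀ e, r e / (2 * N) ≤ 1 / 2 - 1 / (2 * N) := by
    intro e
    have h1 := hrN e
    rw [div_le_iff₀ (by positivity), sub_mul, one_div_mul_cancel (by positivity)]
    linarith
  have hfac0 : ∀ e, 0 ≤ r e / (2 * N) := fun e => div_nonneg (hr0 e) (by positivity)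
  have hNinv : 0 < 1 / (2 * N) := by positivity
  have hlow : ∀ i, ∑ x ∈ Finset.univ.filter (fun x => i < cls x), U x <
      θ ^ i * (1 / (2 * N)) := by
    intro i
    have h1 : ∑ x ∈ Finset.univ.filter (fun x => i < cls x), U x ≤
        ∑ _x ∈ (Finset.univ : Finset E).filter (fun x => i < cls x), θ ^ (i + 1) * (3 / 2) := by
      refine Finset.sum_le_sum fun x hx => ?_
      have h2 := (Finset.mem_filter.1 hx).2
      rw [hU]
      refine mul_le_mul (pow_le_pow_of_le_one hθ0.le hθ1 h2) ?_ ?_ (by positivity)
      · have := hfac x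
        linarith
      · have := hfac0 x
        linarith
    refine h1.trans_lt ?_
    rw [Finset.sum_const, nsmul_eq_mul, pow_succ]
    have h3 : (((Finset.univ : Finset E).filter (fun x => i < cls x)).card : ℝ) ≤ N - 1 := by
      have : ((Finset.univ : Finset E).filter (fun x => i < cls x)).card ≤ Fintype.card E :=
        Finset.card_le_univ _
      have h2 : (((Finset.univ : Finset E).filter (fun x => i < cls x)).card : ℝ) ≤
          (Fintype.card E : ℝ) := by exact_mod_cast this
      rw [hN]
      linarith
    have hp : (0 : ℝ) < θ ^ i := by positivity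
    have h4 : (((Finset.univ : Finset E).filter (fun x => i < cls x)).card : ℝ) *
        (θ ^ i * θ * (3 / 2)) = θ ^ i *
        ((((Finset.univ : Finset E).filter (fun x => i < cls x)).card : ℝ) * (θ * (3 / 2))) := by
      ring
    rw [h4]
    refine mul_lt_mul_of_pos_left ?_ hp
    have h5 : (((Finset.univ : Finset E).filter (fun x => i < cls x)).card : ℝ) * (θ * (3 / 2)) ≤
        N * (θ * (3 / 2)) := mul_le_mul_of_nonneg_right (by linarith) (by positivity)
    refine h5.trans_lt ?_
    rw [hθ]
    have h6 : N * (1 / (4 * N ^ 2) * (3 / 2)) = (3 / 4) * (1 / (2 * N)) := by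
      field_simp
      try ring
    rw [h6]
    linarith
  refine ⟨U, ?_, ?_, ?_, ?_⟩
  · intro e
    rw [hU]
    have := hfac0 e
    positivity
  · intro e
    refine (hlow (cls e)).trans_le ?_
    rw [hU]
    refine mul_le_mul_of_nonneg_left ?_ (by positivity)
    have h1 := hfac0 e
    have h2 : 1 / (2 * N) ≤ 1 := by
      rw [div_le_one (by positivity)]
      linarith
    linarith
  · intro y e hc hw
    have h1 := hlow (cls y)
    have h2 : U y + θ ^ (cls y) * (1 / (2 * N)) ≤ U e := by
      rw [hU]
      simp only [hc]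
      rw [← mul_add]
      refine mul_le_mul_of_nonneg_left ?_ (by positivity)
      have h3 := hrm y e hw
      have h4 : (r y + 1) / (2 * N) ≤ r e / (2 * N) :=
        div_le_div_of_nonneg_right h3 (by positivity)
      rw [add_div] at h4
      linarith
    linarith
  · intro y e e' hc hc'
    have h1 := hlow (cls y)
    have h2 : U y + θ ^ (cls y) * (1 / (2 * N)) ≤ U e + U e' := by
      rw [hU]
      simp only [hc, hc']
      rw [← mul_add, ← mul_add]
      refine mul_le_mul_of_nonneg_left ?_ (by positivity)
      have h3 := hfac y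
      have h4 := hfac0 e
      have h5 := hfac0 e'
      linarith
    linarith

end Pool.Agent.Helper68.SX
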