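import Pool.Agent.Helper68.SX.MainX
import Pool.Agent.Helper68.SX.Pot
import Pool.Agent.Helper39.SW.Num
import Pool.Agent.Helper11.SX.Charge
import Pool.Agent.Helper55.SX.GridX
import Pool.Agent.Helper80.WM.DenseGen2

/-!
# All weights: the block theorem with the constant `log_2 (1 + 1 / k)`, and the main theorem
-/

set_option autoImplicit false

namespace Pool.Agent.Helper68.SX

open Pool.Agent.Helper68.SP Pool.Agent.Helper39.SR Pool.Agent.Helper39.SW

/-- `0 < log_2 (1 + 1 / k) ≤ 1`. -/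
theorem logb_mem {k : ℕ} (hk : 1 ≤ k) : 0 < Real.logb 2 (1 + 1 / (k : ℝ)) ∧
    Real.logb 2 (1 + 1 / (k : ℝ)) ≤ 1 := by
  have hkR : (1 : ℝ) ≤ k := by exact_mod_cast hk
  have h1 : 0 < 1 / (k : ℝ) := by positivity
  have h2 : 1 / (k : ℝ) ≤ 1 := by
    rw [div_le_one (by linarith)]
    exact hkR
  refine ⟨Real.logb_pos (by norm_num) (by linarith), ?_⟩
  rw [Real.logb_le_iff_le_rpow (by norm_num) (by linarith), Real.rpow_one]
  linarith

/-- The block theorem. -/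
theorem dense_3 {k : ℕ} (hk : 1 ≤ k) {δ : ℝ} (hδ : 0 < δ) (hδ1 : δ ≤ 1 / 2)
    {E : Type} [Fintype E] [DecidableEq E] (M : Fin k → Matroid E)
    (hE : ∀ i, (M i).E = Set.univ) {L : ℕ} (hL : 1 ≤ L) (S : ℕ → Finset E)
    (hSi : ∀ t < L, ∀ i, (M i).Indep (S t : Set E))
    (hSd : ∀ s < L, ∀ t < L, s ≠ t → Disjoint (S s) (S t)) (w : E → ℝ)
    {s Γ : ℝ} (hs : 0 < s) (hΓ : 1 ≤ Γ)
    (hSw : ∀ t < L, ∀ e ∈ S t, s ≤ w e ∧ w e ≤ Γ * s)
    {p : ℝ} (hp : 0 < p) (hp1 : p ≤ 1)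
    (hLd : (1000000 * Γ ^ 2 / δ ^ 2) * L * Real.exp (-(p ^ 2 * L * (δ / (8 * Γ)))) ≤ 1) :
    (1 - δ) * (Real.logb 2 (1 + 1 / (k : ℝ)) - 3 * δ) *
        ((1 / (L : ℝ)) * ∑ t ∈ Finset.range L, ∑ e ∈ S t, w e) ≤
      Ex (fun _ => p) (fun R => optC (fun T : Finset E => ∀ i, (M i).Indep (T : Set E)) w
        ((Finset.range L).biUnion S ∩ R)) := by
  classical
  obtain ⟨Λ, hΛ⟩ : ∃ Λ : ℝ, Λ = Real.logb 2 (1 + 1 / (k : ℝ)) := ⟨_, rfl⟩
  obtain ⟨hΛ0, hΛ1⟩ := logb_mem hk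
  rw [← hΛ] at hΛ0 hΛ1 ⊢
  have hkR : (1 : ℝ) ≤ k := by exact_mod_cast hk
  obtain ⟨J, hJ, hgrid⟩ := Pool.Agent.Helper55.SX.grids_x hk
    (show Λ - δ < Real.logb 2 (1 + 1 / (k : ℝ)) by rw [← hΛ]; linarith)
  -- the weights outside the layers are replaced by `s`
  let Q : Finset E := (Finset.range L).biUnion S
  have hSQ : ∀ t < L, ∀ e ∈ S t, e ∈ Q := fun t ht e he =>
    Finset.mem_biUnion.2 ⟨t, Finset.mem_range.2 ht, he⟩
  let w' : E → ℝ := fun e => if e ∈ Q then w e else s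
  have hw' : ∀ e, s ≤ w' e ∧ w' e ≤ Γ * s := by
    intro e
    by_cases h : e ∈ Q
    · simp only [w', if_pos h]
      obtain ⟨t, ht, het⟩ := Finset.mem_biUnion.1 h
      exact hSw t (Finset.mem_range.1 ht) e het
    · simp only [w', if_neg h]
      exact ⟨le_rfl, by nlinarith⟩
  have hwS : ∀ t < L, ∀ e ∈ S t, w' e = w e := fun t ht e he => by
    simp only [w', if_pos (hSQ t ht e he)]
  obtain ⟨cls, D, hD0, hD2, hDw, hDavg⟩ := hgrid w' hs hw'
  choose u hu0 hu1 hu3 hu2 using fun σ => exists_pot (cls σ) w'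
  let h : Fin J → E → ℝ := fun σ e =>
    min (D σ (cls σ e)) (((k : ℝ) / 2) * w' e - (((k : ℝ) - 1) / 2) * D σ (cls σ e))
  have hhD : ∀ σ e, h σ e ≤ D σ (cls σ e) := fun σ e => min_le_left _ _
  have hhw : ∀ σ e, h σ e ≤ ((k : ℝ) / 2) * w' e - (((k : ℝ) - 1) / 2) * D σ (cls σ e) :=
    fun σ e => min_le_right _ _
  have hD0' : ∀ σ e, 0 ≤ D σ (cls σ e) := fun σ e => hD0 σ _
  have hh0 : ∀ σ e, 0 ≤ h σ e := by
    intro σ e
    refine le_min (hD0' σ e) ?_
    have h1 := (hDw σ e).1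
    have h2 := hD0' σ e
    have h3 : 0 ≤ ((k : ℝ) / 2) * (w' e - D σ (cls σ e)) :=
      mul_nonneg (by positivity) (by linarith)
    nlinarith
  have hk1 : ∀ σ e, 0 ≤ (((k : ℝ) - 1) / 2) * D σ (cls σ e) := fun σ e =>
    mul_nonneg (by linarith) (hD0' σ e)
  have hmain := Pool.Agent.Helper80.WM.dense_avg_gen1 M hL S hSi hSd w' hs hΓ
    (fun t _ e _ => hw' e) hp hp1 hδ (by linarith) hLd (J := J) hJ u h (c := (k : ℝ) / 2)
    (κ := ((k : ℝ) / 2) * (Λ - δ)) (by positivity)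
    (by
      have h1 : 1 / ((k : ℝ) / 2) * (((k : ℝ) / 2) * (Λ - δ)) = Λ - δ := by field_simp
      rw [h1]
      linarith)
    (fun σ t _ e _ => by
      have h1 := hhw σ e
      have h2 := hk1 σ e
      linarith)
    (fun t _ e _ => hDavg e)
    (by
      intro σ B hB t ht
      refine Pool.Agent.Helper11.SX.many_gen M hE (cls σ) (u σ) (h σ) w'
        (fun e => D σ (cls σ e) / 2) ((k : ℝ) / 2) (hu0 σ) (hu1 σ) ?_ ?_ (hh0 σ) ?_ ?_ ?_ ?_ ?_ ?_
        hB (Γ := Γ * s) (S t).card (S t) rfl (hSi t ht) ?_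
      · intro e e' y h1 h2
        rw [add_comm]
        exact hu2 σ y e e' h1 h2
      · intro e y h1 h2
        rw [add_comm]
        exact hu3 σ y e h1 h2
      · intro e
        have := hD0' σ e
        linarith
      · intro e y h1
        have h2 := hD2 σ _ _ h1
        have h3 := hhD σ e
        linarith
      · intro e y h1
        have h3 := hhD σ e
        rw [h1] at h3
        linarith
      · intro e y h1 h2
        have h3 := hhw σ e
        rw [h1] at h3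
        have h4 : ((k : ℝ) / 2) * w' e ≤ ((k : ℝ) / 2) * w' y :=
          mul_le_mul_of_nonneg_left h2 (by positivity)
        linarith
      · intro y
        have h4 : ((k : ℝ) / 2) * D σ (cls σ y) ≤ ((k : ℝ) / 2) * w' y :=
          mul_le_mul_of_nonneg_left (hDw σ y).1 (by positivity)
        linarith
      · intro e
        have h1 := hhw σ e
        have h2 := hk1 σ e
        linarith
      · intro e _
        exact (hhD σ e).trans ((hDw σ e).1.trans (hw' e).2))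
  have hsum : ∑ t ∈ Finset.range L, ∑ e ∈ S t, w' e = ∑ t ∈ Finset.range L, ∑ e ∈ S t, w e :=
    Finset.sum_congr rfl fun t ht => Finset.sum_congr rfl fun e he =>
      hwS t (Finset.mem_range.1 ht) e he
  have hopt : ∀ R : Finset E, optC (fun T : Finset E => ∀ i, (M i).Indep (T : Set E)) w' (Q ∩ R) ≤
      optC (fun T : Finset E => ∀ i, (M i).Indep (T : Set E)) w (Q ∩ R) := by
    intro R
    refine opt_le (fun i => by simp) fun X hX hXC => ?_
    have h1 : ∑ e ∈ X, w' e = ∑ e ∈ X, w e := Finset.sum_congr rfl fun e he => by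
      simp only [w', if_pos (Finset.mem_inter.1 (hX he)).1]
    rw [h1]
    exact le_opt hX hXC
  have hrate : IsRate (fun _ : E => p) := fun _ => ⟨hp.le, hp1⟩
  rw [hsum] at hmain
  refine le_trans ?_ (hmain.trans (Ex_mono hrate hopt))
  refine mul_le_mul_of_nonneg_right ?_ ?_
  · refine mul_le_mul_of_nonneg_left ?_ (by linarith)
    have h1 : 1 / ((k : ℝ) / 2) * (((k : ℝ) / 2) * (Λ - δ) - δ) = Λ - δ - 2 * (δ / k) := by
      field_simp
    rw [h1]
    have h2 : δ / k ≤ δ := div_le_self hδ.le hkR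
    linarith
  · refine mul_nonneg (by positivity) (Finset.sum_nonneg fun t ht => Finset.sum_nonneg fun e he => ?_)
    exact hs.le.trans (hSw t (Finset.mem_range.1 ht) e he).1

/-- **All weights**: arbitrary matroids, any rank, ratio `a / (1 + a)`, `a = log_2 (1 + 1 / k)`. -/
theorem weighted_x {k : ℕ} (hk : 1 ≤ k) {ε : ℝ} (hε : 0 < ε) : ∃ C : ℝ, 0 < C ∧
    ∀ (E : Type) [Fintype E] [DecidableEq E] (M : Fin k → Matroid E) (w : E → ℝ),
      (∀ e, 0 ≤ w e) → ∀ p : ℝ, 0 < p → p ≤ 1 →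
      ∃ Q : Finset E, (Q.card : ℝ) ≤ C / p ^ 2 * (1 + Real.log (1 / p)) *
          ((sSup {n : ℕ | ∃ S : Finset E, (∀ i, (M i).Indep (S : Set E)) ∧
            n = S.card} : ℕ) : ℝ) ∧
        (1 - ε) * (Real.logb 2 (1 + 1 / (k : ℝ)) / (1 + Real.logb 2 (1 + 1 / (k : ℝ)))) *
            Ex (fun _ => p) (optC (fun S : Finset E => ∀ i, (M i).Indep (S : Set E)) w) ≤
          Ex (fun _ => p) (fun R =>
            optC (fun S : Finset E => ∀ i, (M i).Indep (S : Set E)) w (Q ∩ R)) := by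
  classical
  obtain ⟨Λ, hΛ⟩ : ∃ Λ : ℝ, Λ = Real.logb 2 (1 + 1 / (k : ℝ)) := ⟨_, rfl⟩
  obtain ⟨hΛ0, hΛ1⟩ := logb_mem hk
  rw [← hΛ] at hΛ0 hΛ1 ⊢
  set η : ℝ := min ε 1 / 5 with hηdef
  have hε'0 : 0 < min ε 1 := lt_min hε one_pos
  have hε'1 : min ε 1 ≤ 1 := min_le_right _ _
  have hη : 0 < η := by rw [hηdef]; linarith
  have hη1 : η ≤ 1 / 5 := by rw [hηdef]; linarith
  set δ : ℝ := η * Λ / 2 with hδdef
  have hδ : 0 < δ := by rw [hδdef]; positivity
  have hδη : δ ≤ η / 2 := by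
    rw [hδdef]
    nlinarith
  have hδ1 : δ ≤ 1 / 2 := by linarith
  have hkR : (1 : ℝ) ≤ k := by exact_mod_cast hk
  set γ : ℝ := 1 + k / δ with hγdef
  have hkδ : 0 < (k : ℝ) / δ := by positivity
  have hγ : 1 < γ := by rw [hγdef]; linarith
  have hγδ : (k : ℝ) / (γ - 1) ≤ δ := by
    rw [hγdef, add_sub_cancel_left, div_div_eq_mul_div, mul_comm, mul_div_assoc,
      div_self (by positivity : (k : ℝ) ≠ 0), mul_one]
  set m : ℕ := max 2 ⌈1 / δ⌉₊ with hmdef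
  have hm : 2 ≤ m := le_max_left _ _
  have hmδ : 1 / (m : ℝ) ≤ δ := by
    have h1 : 1 / δ ≤ (m : ℝ) := (Nat.le_ceil (1 / δ)).trans (by
      exact_mod_cast le_max_right 2 ⌈1 / δ⌉₊)
    rw [div_le_iff₀ hδ] at h1
    rw [div_le_iff₀ (by positivity)]
    linarith
  have hΓ : 1 ≤ γ ^ m := one_le_pow₀ hγ.le
  have hK : (1 : ℝ) ≤ 1000000 * (γ ^ m) ^ 2 / δ ^ 2 := by
    rw [le_div_iff₀ (by positivity)]
    have h1 : δ ^ 2 ≤ 1 := pow_le_one₀ hδ.le (by linarith)
    have h2 : 1 ≤ (γ ^ m) ^ 2 := one_le_pow₀ hΓ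
    nlinarith
  have hβ : 0 < δ / (8 * γ ^ m) := by positivity
  obtain ⟨A, hA, hAL⟩ := numbers_gen hK hβ
  refine ⟨A, hA, ?_⟩
  intro E _ _ M w hw p hp hp1
  have hrate : IsRate (fun _ : E => p) := fun _ => ⟨hp.le, hp1⟩
  obtain ⟨L, hL1, hL2, hL3⟩ := hAL p hp hp1
  let N : Fin k → Matroid E := fun i => (M i).restrict Set.univ
  have hN : ∀ (i : Fin k) (S : Set E), (N i).Indep S ↔ (M i).Indep S := by
    intro i S
    simp [N, Matroid.restrict_indep_iff]
  have hNE : ∀ i, (N i).E = Set.univ := fun i => by simp [N]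
  obtain ⟨Q, hQ1, hQ2⟩ := main_x (Λ := Λ) (η := η) hk N hNE hL1 w hw hp hp1 hδ hδη hη1 hΛ0 hγ hm
    hγδ hmδ (by
      intro S s hSi hSd hs hSw
      refine le_trans ?_ (dense_3 hk hδ hδ1 N hNE hL1 S hSi hSd w hs hΓ hSw hp hp1 hL2)
      refine mul_le_mul_of_nonneg_right ?_ ?_
      · refine mul_le_mul_of_nonneg_left ?_ (by linarith)
        rw [← hΛ, hδdef]
        nlinarith [mul_pos hη hΛ0]
      · refine mul_nonneg (by positivity) (Finset.sum_nonneg fun t _ => Finset.sum_nonneg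
          fun e _ => hw e))
  simp only [hN] at hQ1 hQ2
  refine ⟨Q, ?_, ?_⟩
  · calc (Q.card : ℝ) ≤ ((L * sSup {n : ℕ | ∃ S : Finset E, (∀ i, (M i).Indep (S : Set E)) ∧
            n = S.card} : ℕ) : ℝ) := by exact_mod_cast hQ1
      _ = (L : ℝ) * ((sSup {n : ℕ | ∃ S : Finset E, (∀ i, (M i).Indep (S : Set E)) ∧
            n = S.card} : ℕ) : ℝ) := by push_cast; ring
      _ ≤ _ := mul_le_mul_of_nonneg_right hL3 (Nat.cast_nonneg _)
  · refine le_trans (mul_le_mul_of_nonneg_right ?_ ?_) hQ2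
    · refine mul_le_mul_of_nonneg_right ?_ (by positivity)
      have h1 : min ε 1 ≤ ε := min_le_left _ _
      have h2 : min ε 1 = 5 * η := by rw [hηdef]; ring
      linarith
    · exact Ex_nonneg hrate fun S => opt_nonneg (fun i => by simp) S

end Pool.Agent.Helper68.SX
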