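import Pool.Agent.Helper39.SR.Unit
import Pool.Agent.Helper39.SW.MergeM
import Pool.Agent.Helper39.SW.ScalesM

/-!
# All weights: the assembly for an abstract block theorem

Layers of maximum-weight common independent sets, cut into well-separated weight blocks; the
block theorem in each block, and the merging of the optima of the blocks.
-/

set_option autoImplicit false

namespace Pool.Agent.Helper68.SX

open Pool.Agent.Helper68.SP Pool.Agent.Helper39.SR Pool.Agent.Helper39.SW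

variable {E : Type} [Fintype E] [DecidableEq E]

/-- All weights, with `L` layers: the bound for fixed numbers, from a block theorem. -/
theorem main_x {k : ℕ} (hk : 1 ≤ k) (M : Fin k → Matroid E) (hE : ∀ i, (M i).E = Set.univ)
    {L : ℕ} (hL : 1 ≤ L) (w : E → ℝ) (hw : ∀ e, 0 ≤ w e) {p δ η Λ γ : ℝ} (hp : 0 < p)
    (hp1 : p ≤ 1) (hδ : 0 < δ) (hδη : δ ≤ η / 2) (hη : η ≤ 1 / 5) (hΛ : 0 < Λ)
    (hγ : 1 < γ) {m : ℕ} (hm : 2 ≤ m)
    (hγδ : (k : ℝ) / (γ - 1) ≤ δ) (hmδ : 1 / (m : ℝ) ≤ δ)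
    (hdense : ∀ (S : ℕ → Finset E) (s : ℝ), (∀ t < L, ∀ i, (M i).Indep (S t : Set E)) →
      (∀ s < L, ∀ t < L, s ≠ t → Disjoint (S s) (S t)) → 0 < s →
      (∀ t < L, ∀ e ∈ S t, s ≤ w e ∧ w e ≤ γ ^ m * s) →
      (1 - δ) * (Λ * (1 - 2 * η)) *
          ((1 / (L : ℝ)) * ∑ t ∈ Finset.range L, ∑ e ∈ S t, w e) ≤
        Ex (fun _ => p) (fun R => optC (fun T : Finset E => ∀ i, (M i).Indep (T : Set E)) w
          ((Finset.range L).biUnion S ∩ R))) :
    ∃ Q : Finset E, Q.card ≤ L * sSup {n : ℕ | ∃ S : Finset E,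
        (∀ i, (M i).Indep (S : Set E)) ∧ n = S.card} ∧
      (1 - 5 * η) * (Λ / (1 + Λ)) * Ex (fun _ => p)
          (optC (fun S : Finset E => ∀ i, (M i).Indep (S : Set E)) w) ≤
        Ex (fun _ => p) (fun R =>
          optC (fun S : Finset E => ∀ i, (M i).Indep (S : Set E)) w (Q ∩ R)) := by
  classical
  have hη0 : 0 < η := by linarith
  have hδ1 : δ ≤ 1 / 2 := by linarith
  have hrate : IsRate (fun _ : E => p) := fun _ => ⟨hp.le, hp1⟩
  set Com : Finset E → Prop := fun S => ∀ i, (M i).Indep (S : Set E) with hCom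
  have hC0 : Com ∅ := fun i => by simp
  have hsub : ∀ S T : Finset E, S ⊆ T → Com T → Com S := fun S T h hT i =>
    (hT i).subset (Finset.coe_subset.2 h)
  have hkR : (1 : ℝ) ≤ k := by exact_mod_cast hk
  have hLR : (1 : ℝ) ≤ L := by exact_mod_cast hL
  have hKr : ∀ A : Finset E, ∃ S : Finset E, S ⊆ A ∧ Com S ∧ ∑ e ∈ S, w e = optC Com w A :=
    fun A => opt_attained hC0 A
  choose Kr hKA hKC hKo using hKr
  let S : ℕ → Finset E := fun t => Kr (restF Kr t)
  let Q : Finset E := (Finset.range L).biUnion S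
  have hSd : ∀ s < L, ∀ t < L, s ≠ t → Disjoint (S s) (S t) := by
    intro s _ t _ hne
    rw [Finset.disjoint_left]
    intro e he he'
    rcases lt_or_gt_of_ne hne with h | h
    · exact layF_disj Kr hKA h he he'
    · exact layF_disj Kr hKA h he' he
  have hbdd : BddAbove {n : ℕ | ∃ S : Finset E, Com S ∧ n = S.card} := by
    refine ⟨Fintype.card E, ?_⟩
    rintro n ⟨S, -, rfl⟩
    exact Finset.card_le_univ S
  set W : ℝ := optC Com w (restF Kr L) with hW
  have hW0 : 0 ≤ W := opt_nonneg hC0 _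
  have hWS : ∀ t < L, W ≤ ∑ e ∈ S t, w e := by
    intro t ht
    rw [hKo]
    exact opt_mono hC0 (restF_anti Kr ht.le)
  have hres : ∀ R, optC Com w R ≤ optC Com w (Q ∩ R) + W := by
    intro R
    refine opt_le hC0 fun X hXR hX => ?_
    have h1 : ∑ e ∈ X ∩ Q, w e + ∑ e ∈ X \ Q, w e = ∑ e ∈ X, w e :=
      Finset.sum_inter_add_sum_sdiff X Q w
    have h2 : ∑ e ∈ X \ Q, w e ≤ W := by
      refine le_opt ?_ (hsub _ _ Finset.sdiff_subset hX)
      intro e he
      refine mem_restF Kr fun s hs hes => (Finset.mem_sdiff.1 he).2 ?_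
      exact Finset.mem_biUnion.2 ⟨s, Finset.mem_range.2 hs, hes⟩
    have h3 : ∑ e ∈ X ∩ Q, w e ≤ optC Com w (Q ∩ R) :=
      le_opt (fun e he => Finset.mem_inter.2 ⟨(Finset.mem_inter.1 he).2,
          hXR (Finset.mem_inter.1 he).1⟩) (hsub _ _ Finset.inter_subset_left hX)
    linarith
  -- the blocks
  obtain ⟨K, b, sc, hKQ, hKs, hKg, hKw⟩ := scalesM w hw Q hγ hm
  let I : Finset ℤ := K.image b
  let SB : ℤ → ℕ → Finset E := fun β t => (S t ∩ K).filter fun e => b e = β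
  have hSB : ∀ β t e, e ∈ SB β t ↔ e ∈ S t ∧ e ∈ K ∧ b e = β := by
    intro β t e
    simp only [SB, Finset.mem_filter, Finset.mem_inter, and_assoc]
  have hSBS : ∀ β t, SB β t ⊆ S t := fun β t e he => ((hSB β t e).1 he).1
  let QB : ℤ → Finset E := fun β => (Finset.range L).biUnion (SB β)
  have hQB : ∀ β e, e ∈ QB β → e ∈ Q ∧ e ∈ K ∧ b e = β := by
    intro β e he
    obtain ⟨t, ht, het⟩ := Finset.mem_biUnion.1 he
    exact ⟨Finset.mem_biUnion.2 ⟨t, ht, hSBS β t het⟩, ((hSB β t e).1 het).2⟩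
  -- the lower bound in each block
  set c : ℝ := (1 - δ) * (Λ * (1 - 2 * η)) with hc
  have hc0 : 0 ≤ c := mul_nonneg (by linarith) (mul_nonneg hΛ.le (by linarith))
  have hblock : ∀ β ∈ I, c * ((1 / (L : ℝ)) * ∑ t ∈ Finset.range L, ∑ e ∈ SB β t, w e) ≤
      Ex (fun _ => p) (fun R => optC Com w (QB β ∩ R)) := by
    intro β hβ
    obtain ⟨e₀, he₀, he₀β⟩ := Finset.mem_image.1 hβ
    have hs0 : 0 < sc β := he₀β ▸ (hKs e₀ he₀).1
    refine hdense (SB β) (sc β) ?_ ?_ hs0 ?_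
    · exact fun t _ => hsub _ _ (hSBS β t) (hKC _)
    · exact fun s hs t ht hne => (hSd s hs t ht hne).mono (hSBS β s) (hSBS β t)
    · intro t _ e he
      obtain ⟨-, heK, heβ⟩ := (hSB β t e).1 he
      have := hKs e heK
      rw [heβ] at this
      exact this.2
  -- merging
  have hmerge : ∀ R, ∑ β ∈ I, optC Com w (QB β ∩ R) ≤
      (1 + k / (γ - 1)) * optC Com w (Q ∩ R) := by
    intro R
    have hT : ∀ β, ∃ T : Finset E, T ⊆ QB β ∩ R ∧ Com T ∧
        ∑ e ∈ T, w e = optC Com w (QB β ∩ R) := fun β => opt_attained hC0 _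
    choose T hT1 hT2 hT3 using hT
    have hTm : ∀ β e, e ∈ T β → (e ∈ Q ∧ e ∈ K ∧ b e = β) ∧ e ∈ R := fun β e he =>
      ⟨hQB β e (Finset.mem_inter.1 (hT1 β he)).1, (Finset.mem_inter.1 (hT1 β he)).2⟩
    obtain ⟨U, hU1, hU2, hU3⟩ := mergeM M hE hγ w hw b I T (fun β _ => hT2 β)
      (fun β _ e he => (hTm β e he).1.2.2) (by
        intro β _ β' _ hlt e he e' he'
        have h1 := (hTm β e he).1.2
        have h2 := (hTm β' e' he').1.2
        have h3 := hKg e h1.1 e' h2.1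
        rw [h1.2, h2.2] at h3
        exact h3 hlt)
    have hUQ : U ⊆ Q ∩ R := by
      refine hU1.trans (Finset.biUnion_subset.2 fun β _ e he => ?_)
      exact Finset.mem_inter.2 ⟨(hTm β e he).1.1, (hTm β e he).2⟩
    calc ∑ β ∈ I, optC Com w (QB β ∩ R) = ∑ β ∈ I, ∑ e ∈ T β, w e :=
          Finset.sum_congr rfl fun β _ => (hT3 β).symm
      _ ≤ (1 + k / (γ - 1)) * ∑ e ∈ U, w e := hU3
      _ ≤ (1 + k / (γ - 1)) * optC Com w (Q ∩ R) := by
          refine mul_le_mul_of_nonneg_left (le_opt hUQ hU2) ?_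
          have : 0 ≤ (k : ℝ) / (γ - 1) := div_nonneg (by linarith) (by linarith)
          linarith
  set B : ℝ := Ex (fun _ => p) (fun R => optC Com w (Q ∩ R)) with hB
  have hB0 : 0 ≤ B := Ex_nonneg hrate fun R => opt_nonneg hC0 _
  -- the weights of the blocks
  have hsumK : ∑ β ∈ I, ∑ t ∈ Finset.range L, ∑ e ∈ SB β t, w e = ∑ e ∈ K, w e := by
    have h1 : ∀ β ∈ I, ∑ t ∈ Finset.range L, ∑ e ∈ SB β t, w e =
        ∑ e ∈ K.filter (fun e => b e = β), w e := by
      intro β _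
      rw [← Finset.sum_biUnion]
      · refine Finset.sum_congr ?_ fun _ _ => rfl
        ext e
        constructor
        · intro he
          obtain ⟨-, h2, h3⟩ := hQB β e he
          exact Finset.mem_filter.2 ⟨h2, h3⟩
        · intro he
          obtain ⟨h2, h3⟩ := Finset.mem_filter.1 he
          obtain ⟨t, ht, het⟩ := Finset.mem_biUnion.1 (hKQ h2)
          exact Finset.mem_biUnion.2 ⟨t, ht, (hSB β t e).2 ⟨het, h2, h3⟩⟩
      · intro s hs t ht hne
        exact (hSd s (Finset.mem_range.1 hs) t (Finset.mem_range.1 ht) hne).mono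
          (hSBS β s) (hSBS β t)
    rw [Finset.sum_congr rfl h1]
    exact Finset.sum_fiberwise_of_maps_to (fun e he => Finset.mem_image_of_mem b he) w
  have hsumQ : (L : ℝ) * W ≤ ∑ e ∈ Q, w e := by
    have h1 : ∑ e ∈ Q, w e = ∑ t ∈ Finset.range L, ∑ e ∈ S t, w e :=
      Finset.sum_biUnion fun s hs t ht hne =>
        hSd s (Finset.mem_range.1 hs) t (Finset.mem_range.1 ht) hne
    rw [h1]
    have h2 := Finset.sum_le_sum fun t (ht : t ∈ Finset.range L) => hWS t (Finset.mem_range.1 ht)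
    rwa [Finset.sum_const, Finset.card_range, nsmul_eq_mul] at h2
  have hlow : c * ((1 - δ) * W) ≤ (1 + δ) * B := by
    have h1 : c * ((1 / (L : ℝ)) * ∑ e ∈ K, w e) ≤ (1 + δ) * B := by
      calc c * ((1 / (L : ℝ)) * ∑ e ∈ K, w e)
          = ∑ β ∈ I, c * ((1 / (L : ℝ)) * ∑ t ∈ Finset.range L, ∑ e ∈ SB β t, w e) := by
            rw [← Finset.mul_sum, ← Finset.mul_sum, hsumK]
        _ ≤ ∑ β ∈ I, Ex (fun _ => p) (fun R => optC Com w (QB β ∩ R)) :=
            Finset.sum_le_sum hblock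
        _ = Ex (fun _ => p) (fun R => ∑ β ∈ I, optC Com w (QB β ∩ R)) := by
            rw [Ex_sum]
        _ ≤ Ex (fun _ => p) (fun R => (1 + k / (γ - 1)) * optC Com w (Q ∩ R)) :=
            Ex_mono hrate hmerge
        _ = (1 + k / (γ - 1)) * B := by rw [Ex_mul_left]
        _ ≤ (1 + δ) * B := mul_le_mul_of_nonneg_right (by linarith) hB0
    refine le_trans (mul_le_mul_of_nonneg_left ?_ hc0) h1
    have h2 : (1 - δ) * ((L : ℝ) * W) ≤ ∑ e ∈ K, w e := by
      refine le_trans ?_ hKw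
      refine mul_le_mul (by linarith) hsumQ (by positivity) ?_
      have : (1 : ℝ) / m ≤ 1 := by linarith
      linarith
    have hL0 : (0 : ℝ) < L := by linarith
    calc (1 - δ) * W = (1 / (L : ℝ)) * ((1 - δ) * ((L : ℝ) * W)) := by field_simp
      _ ≤ (1 / (L : ℝ)) * ∑ e ∈ K, w e := mul_le_mul_of_nonneg_left h2 (by positivity)
  refine ⟨Q, ?_, ?_⟩
  · refine Finset.card_biUnion_le.trans ?_
    refine (Finset.sum_le_sum fun t _ => le_csSup hbdd ⟨_, hKC (restF Kr t), rfl⟩).trans ?_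
    rw [Finset.sum_const, Finset.card_range, smul_eq_mul]
  · have h1 : Ex (fun _ => p) (optC Com w) ≤ B + W := by
      refine (Ex_mono hrate hres).trans ?_
      rw [Ex_add, Ex_const]
    have hE0 : 0 ≤ Ex (fun _ => p) (optC Com w) := Ex_nonneg hrate fun R => opt_nonneg hC0 _
    have hden : (0 : ℝ) < 1 + Λ := by linarith
    have hpos : 0 ≤ 1 - 5 * η := by linarith
    -- `(1 - 5 η) Λ W ≤ B`
    have h2 : (1 - 5 * η) * (Λ * W) ≤ B := by
      have hLW : 0 ≤ Λ * W := mul_nonneg hΛ.le hW0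
      have h3 : (1 - 5 * η) * (1 + δ) ≤ (1 - δ) * (1 - δ) * (1 - 2 * η) := by
        have e1 : (1 - 5 * η) * (1 + δ) ≤ (1 - 5 * η) * (1 + η / 2) :=
          mul_le_mul_of_nonneg_left (by linarith) hpos
        have e2 : (1 - η / 2) * (1 - η / 2) ≤ (1 - δ) * (1 - δ) :=
          mul_le_mul (by linarith) (by linarith) (by linarith) (by linarith)
        have e3 : (1 - η / 2) * (1 - η / 2) * (1 - 2 * η) ≤
            (1 - δ) * (1 - δ) * (1 - 2 * η) := mul_le_mul_of_nonneg_right e2 (by linarith)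
        have e4 : (1 - 5 * η) * (1 + η / 2) ≤ (1 - η / 2) * (1 - η / 2) * (1 - 2 * η) := by
          nlinarith [mul_pos hη0 hη0]
        linarith
      have h5 : (1 + δ) * ((1 - 5 * η) * (Λ * W)) ≤ (1 + δ) * B := by
        calc (1 + δ) * ((1 - 5 * η) * (Λ * W)) = ((1 - 5 * η) * (1 + δ)) * (Λ * W) := by ring
          _ ≤ ((1 - δ) * (1 - δ) * (1 - 2 * η)) * (Λ * W) :=
              mul_le_mul_of_nonneg_right h3 hLW
          _ = c * ((1 - δ) * W) := by rw [hc]; ring
          _ ≤ (1 + δ) * B := hlow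
      exact le_of_mul_le_mul_left h5 (by linarith)
    calc (1 - 5 * η) * (Λ / (1 + Λ)) * Ex (fun _ => p) (optC Com w)
        ≤ (1 - 5 * η) * (Λ / (1 + Λ)) * (B + W) :=
          mul_le_mul_of_nonneg_left h1 (by positivity)
      _ = Λ / (1 + Λ) * ((1 - 5 * η) * B) + 1 / (1 + Λ) * ((1 - 5 * η) * (Λ * W)) := by ring
      _ ≤ Λ / (1 + Λ) * B + 1 / (1 + Λ) * B := by
          refine add_le_add (mul_le_mul_of_nonneg_left ?_ (by positivity))
            (mul_le_mul_of_nonneg_left h2 (by positivity))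
          have : (1 - 5 * η) * B ≤ 1 * B := mul_le_mul_of_nonneg_right (by linarith) hB0
          linarith
      _ = B := by field_simp; ring

end Pool.Agent.Helper68.SX
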