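import Pool.Agent.Helper68.SX.MainX
import Pool.Agent.Helper39.SW.Num

/-!
# All weights, from a block theorem with the constant `Λ`
-/

set_option autoImplicit false

namespace Pool.Agent.Helper68.SX

open Pool.Agent.Helper68.SP Pool.Agent.Helper39.SR Pool.Agent.Helper39.SW

/-- All weights: arbitrary matroids, any rank, ratio `Λ / (1 + Λ)`, from a block theorem. -/
theorem weighted_of {k : ℕ} (hk : 1 ≤ k) {Λ : ℝ} (hΛ : 0 < Λ) (hΛ1 : Λ ≤ 1)
    (hD : ∀ δ : ℝ, 0 < δ → δ ≤ 1 / 2 → ∃ K0 : ℝ, 1 ≤ K0 ∧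
      ∀ {E : Type} [Fintype E] [DecidableEq E] (M : Fin k → Matroid E)
      (_hE : ∀ i, (M i).E = Set.univ) {L : ℕ} (_hL : 1 ≤ L) (S : ℕ → Finset E)
      (_hSi : ∀ t < L, ∀ i, (M i).Indep (S t : Set E))
      (_hSd : ∀ s < L, ∀ t < L, s ≠ t → Disjoint (S s) (S t)) (w : E → ℝ)
      {s Γ : ℝ} (_hs : 0 < s) (_hΓ : 1 ≤ Γ)
      (_hSw : ∀ t < L, ∀ e ∈ S t, s ≤ w e ∧ w e ≤ Γ * s)
      {p : ℝ} (_hp : 0 < p) (_hp1 : p ≤ 1)
      (_hLd : (K0 * Γ ^ 2 / δ ^ 2) * L * Real.exp (-(p ^ 2 * L * (δ / (8 * Γ)))) ≤ 1)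
      (_hLp : 4 * Γ ≤ p * L),
      (1 - δ) * (Λ - δ) *
        ((1 / (L : ℝ)) * ∑ t ∈ Finset.range L, ∑ e ∈ S t, w e) ≤
      Ex (fun _ => p) (fun R => optC (fun T : Finset E => ∀ i, (M i).Indep (T : Set E)) w
        ((Finset.range L).biUnion S ∩ R)))
    {ε : ℝ} (hε : 0 < ε) : ∃ C : ℝ, 0 < C ∧
    ∀ (E : Type) [Fintype E] [DecidableEq E] (M : Fin k → Matroid E) (w : E → ℝ),
      (∀ e, 0 ≤ w e) → ∀ p : ℝ, 0 < p → p ≤ 1 →
      ∃ Q : Finset E, (Q.card : ℝ) ≤ C / p ^ 2 * (1 + Real.log (1 / p)) *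
          ((sSup {n : ℕ | ∃ S : Finset E, (∀ i, (M i).Indep (S : Set E)) ∧
            n = S.card} : ℕ) : ℝ) ∧
        (1 - ε) * (Λ / (1 + Λ)) * Ex (fun _ => p)
            (optC (fun S : Finset E => ∀ i, (M i).Indep (S : Set E)) w) ≤
          Ex (fun _ => p) (fun R =>
            optC (fun S : Finset E => ∀ i, (M i).Indep (S : Set E)) w (Q ∩ R)) := by
  classical
  set η : ℝ := min ε 1 / 5 with hηdef
  have hε'0 : 0 < min ε 1 := lt_min hε one_pos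
  have hε'1 : min ε 1 ≤ 1 := min_le_right _ _
  have hη : 0 < η := by rw [hηdef]; linarith
  have hη1 : η ≤ 1 / 5 := by rw [hηdef]; linarith
  set δ : ℝ := η * Λ / 2 with hδdef
  have hδ : 0 < δ := by rw [hδdef]; positivity
  have hδη : δ ≤ η / 2 := by
    rw [hδdef]
    nlinarith
  have hδ1 : δ ≤ 1 / 2 := by linarith
  have hkR : (1 : ℝ) ≤ k := by exact_mod_cast hk
  obtain ⟨K0, hK0, hDK⟩ := hD δ hδ hδ1
  set γ : ℝ := 1 + k / δ with hγdef
  have hkδ : 0 < (k : ℝ) / δ := by positivity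
  have hγ : 1 < γ := by rw [hγdef]; linarith
  have hγδ : (k : ℝ) / (γ - 1) ≤ δ := by
    rw [hγdef, add_sub_cancel_left, div_div_eq_mul_div, mul_comm, mul_div_assoc,
      div_self (by positivity : (k : ℝ) ≠ 0), mul_one]
  set m : ℕ := max 2 ⌈1 / δ⌉₊ with hmdef
  have hm : 2 ≤ m := le_max_left _ _
  have hmδ : 1 / (m : ℝ) ≤ δ := by
    have h1 : 1 / δ ≤ (m : ℝ) := (Nat.le_ceil (1 / δ)).trans (by
      exact_mod_cast le_max_right 2 ⌈1 / δ⌉₊)
    rw [div_le_iff₀ hδ] at h1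
    rw [div_le_iff₀ (by positivity)]
    linarith
  have hΓ : 1 ≤ γ ^ m := one_le_pow₀ hγ.le
  have hK : (1 : ℝ) ≤ K0 * (γ ^ m) ^ 2 / δ ^ 2 := by
    rw [le_div_iff₀ (by positivity)]
    have h1 : δ ^ 2 ≤ 1 := pow_le_one₀ hδ.le (by linarith)
    have h2 : 1 ≤ (γ ^ m) ^ 2 := one_le_pow₀ hΓ
    nlinarith
  have hβ : 0 < δ / (8 * γ ^ m) := by positivity
  obtain ⟨A, hA, hAL⟩ := numbers_gen' (D := 4 * γ ^ m) hK hβ (by positivity)
  refine ⟨A, hA, ?_⟩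
  intro E _ _ M w hw p hp hp1
  have hrate : IsRate (fun _ : E => p) := fun _ => ⟨hp.le, hp1⟩
  obtain ⟨L, hL1, hL2, hLp, hL3⟩ := hAL p hp hp1
  let N : Fin k → Matroid E := fun i => (M i).restrict Set.univ
  have hN : ∀ (i : Fin k) (S : Set E), (N i).Indep S ↔ (M i).Indep S := by
    intro i S
    simp [N, Matroid.restrict_indep_iff]
  have hNE : ∀ i, (N i).E = Set.univ := fun i => by simp [N]
  obtain ⟨Q, hQ1, hQ2⟩ := main_x (Λ := Λ) (η := η) hk N hNE hL1 w hw hp hp1 hδ hδη hη1 hΛ hγ hm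
    hγδ hmδ (by
      intro S s hSi hSd hs hSw
      refine le_trans ?_ (hDK N hNE hL1 S hSi hSd w hs hΓ hSw hp hp1 hL2 hLp)
      refine mul_le_mul_of_nonneg_right ?_ ?_
      · refine mul_le_mul_of_nonneg_left ?_ (by linarith)
        rw [hδdef]
        nlinarith [mul_pos hη hΛ]
      · refine mul_nonneg (by positivity) (Finset.sum_nonneg fun t _ => Finset.sum_nonneg
          fun e _ => hw e))
  simp only [hN] at hQ1 hQ2
  refine ⟨Q, ?_, ?_⟩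
  · calc (Q.card : ℝ) ≤ ((L * sSup {n : ℕ | ∃ S : Finset E, (∀ i, (M i).Indep (S : Set E)) ∧
            n = S.card} : ℕ) : ℝ) := by exact_mod_cast hQ1
      _ = (L : ℝ) * ((sSup {n : ℕ | ∃ S : Finset E, (∀ i, (M i).Indep (S : Set E)) ∧
            n = S.card} : ℕ) : ℝ) := by push_cast; ring
      _ ≤ _ := mul_le_mul_of_nonneg_right hL3 (Nat.cast_nonneg _)
  · refine le_trans (mul_le_mul_of_nonneg_right ?_ ?_) hQ2
    · refine mul_le_mul_of_nonneg_right ?_ (by positivity)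
      have h1 : min ε 1 ≤ ε := min_le_left _ _
      have h2 : min ε 1 = 5 * η := by rw [hηdef]; ring
      linarith
    · exact Ex_nonneg hrate fun S => opt_nonneg (fun i => by simp) S

end Pool.Agent.Helper68.SX
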